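-- Disjoint unions of double stars: bipartite graphs of maximum degree `D`, edge classes of size
-- `2 * D - 2`, no rainbow matching.
import Mathlib

set_option autoImplicit false

namespace Pool.Agent.Results.MP_75e851_co.DoubleStars

/-- A rainbow matching for the edge sets `E 0, …, E (m - 1)`: a choice of one edge from every set
such that edges chosen from different sets have no vertex in common (so they are distinct and
form a matching with `m` edges). -/
def HasRainbowMatching {V : Type} {m : ℕ} (E : Fin m → Finset (Sym2 V)) : Prop :=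
  ∃ e : Fin m → Sym2 V, (∀ i, e i ∈ E i) ∧ ∀ i j, i ≠ j → ∀ v : V, ¬ (v ∈ e i ∧ v ∈ e j)

/-- The vertices: `(j, β, none)` is the centre number `β` of the `j`-th double star,
`(j, β, some i)` are the leaves attached to that centre. -/
abbrev Vert (d : ℕ) : Type := Fin (2 * d) × Bool × Option (Fin d)

/-- Adjacency inside a double star. -/
def adjIn {d : ℕ} : Bool × Option (Fin d) → Bool × Option (Fin d) → Prop
  | (β, none), (γ, none) => β ≠ γ
  | (β, none), (γ, some _) => β = γ
  | (β, some _), (γ, none) => β = γ
  | (_, some _), (_, some _) => False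

instance {d : ℕ} : DecidableRel (adjIn (d := d)) := fun a b =>
  match a, b with
  | (β, none), (γ, none) => inferInstanceAs (Decidable (β ≠ γ))
  | (β, none), (γ, some _) => inferInstanceAs (Decidable (β = γ))
  | (β, some _), (γ, none) => inferInstanceAs (Decidable (β = γ))
  | (_, some _), (_, some _) => inferInstanceAs (Decidable False)

theorem adjIn_symm {d : ℕ} : ∀ a b : Bool × Option (Fin d), adjIn a b → adjIn b a
  | (_, none), (_, none), h => Ne.symm h
  | (_, none), (_, some _), h => Eq.symm h
  | (_, some _), (_, none), h => Eq.symm h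
  | (_, some _), (_, some _), h => h

theorem adjIn_irrefl {d : ℕ} : ∀ a : Bool × Option (Fin d), ¬ adjIn a a
  | (_, none), h => h rfl
  | (_, some _), h => h

/-- The disjoint union of `2 * d` double stars, each centre having `d` leaves. -/
def H (d : ℕ) : SimpleGraph (Vert d) where
  Adj a b := a.1 = b.1 ∧ adjIn a.2 b.2
  symm := ⟨fun a b h => ⟨h.1.symm, adjIn_symm _ _ h.2⟩⟩
  loopless := ⟨fun a h => adjIn_irrefl _ h.2⟩

instance (d : ℕ) : DecidableRel (H d).Adj := fun a b =>
  inferInstanceAs (Decidable (a.1 = b.1 ∧ adjIn a.2 b.2))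

/-- The central edge of the `j`-th double star. -/
def blue {d : ℕ} (j : Fin (2 * d)) : Sym2 (Vert d) := s((j, true, none), (j, false, none))

/-- The leaf edges of the `j`-th double star. -/
def red {d : ℕ} (j : Fin (2 * d)) (x : Bool × Fin d) : Sym2 (Vert d) :=
  s((j, x.1, none), (j, x.1, some x.2))

/-- The `2 * d + 1` edge classes: all central edges, and for every `j` the leaf edges of the
`j`-th double star. -/
def E (d : ℕ) : Fin (2 * d + 1) → Finset (Sym2 (Vert d)) :=
  Fin.cons (Finset.univ.image blue) (fun j => Finset.univ.image (red j))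

theorem E_zero (d : ℕ) : E d 0 = Finset.univ.image blue := rfl

theorem E_succ (d : ℕ) (j : Fin (2 * d)) : E d j.succ = Finset.univ.image (red j) := rfl

theorem colorable (d : ℕ) : (H d).Colorable 2 := by
  refine ⟨SimpleGraph.Coloring.mk
    (fun v : Vert d => if v.2.1 = v.2.2.isNone then (0 : Fin 2) else 1) ?_⟩
  rintro ⟨j, β, o⟩ ⟨k, γ, q⟩ ⟨-, h⟩
  cases β <;> cases γ <;> cases o <;> cases q <;> simp_all [adjIn]

theorem blue_injective (d : ℕ) : Function.Injective (blue (d := d)) := by
  intro j k h
  simp only [blue, Sym2.eq_iff, Prod.mk.injEq] at h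
  rcases h with h | h
  · exact h.1.1
  · exact h.1.1

theorem red_injective {d : ℕ} (j : Fin (2 * d)) : Function.Injective (red j) := by
  rintro ⟨β, i⟩ ⟨γ, k⟩ h
  simp only [red, Sym2.eq_iff, Prod.mk.injEq, true_and, Option.some.injEq] at h
  rcases h with h | h
  · exact Prod.ext h.1.1 h.2.2
  · exact absurd h.1.2 (by simp)

theorem card_E (d : ℕ) (i : Fin (2 * d + 1)) : (E d i).card = 2 * d := by
  refine Fin.cases ?_ (fun j => ?_) i
  · rw [E_zero, Finset.card_image_of_injective _ (blue_injective d)]
    simp
  · rw [E_succ, Finset.card_image_of_injective _ (red_injective j)]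
    simp

theorem blue_mem {d : ℕ} (j : Fin (2 * d)) : blue j ∈ (H d).edgeFinset := by
  rw [SimpleGraph.mem_edgeFinset, blue, SimpleGraph.mem_edgeSet]
  exact ⟨rfl, by simp [adjIn]⟩

theorem red_mem {d : ℕ} (j : Fin (2 * d)) (x : Bool × Fin d) : red j x ∈ (H d).edgeFinset := by
  rw [SimpleGraph.mem_edgeFinset, red, SimpleGraph.mem_edgeSet]
  exact ⟨rfl, by simp [adjIn]⟩

theorem union_E (d : ℕ) : Finset.univ.biUnion (E d) = (H d).edgeFinset := by
  ext e
  rw [Finset.mem_biUnion]
  constructor
  · rintro ⟨i, -, hi⟩
    revert hi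
    refine Fin.cases ?_ (fun j => ?_) i
    · rw [E_zero, Finset.mem_image]
      rintro ⟨j, -, rfl⟩
      exact blue_mem j
    · rw [E_succ, Finset.mem_image]
      rintro ⟨x, -, rfl⟩
      exact red_mem j x
  · intro he
    induction e with
    | _ a b =>
      rw [SimpleGraph.mem_edgeFinset, SimpleGraph.mem_edgeSet] at he
      obtain ⟨j, β, o⟩ := a
      obtain ⟨k, γ, q⟩ := b
      obtain ⟨h1, h2⟩ := he
      simp only at h1
      subst h1
      cases o with
      | none =>
        cases q with
        | none =>
          refine ⟨0, Finset.mem_univ _, ?_⟩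
          rw [E_zero, Finset.mem_image]
          refine ⟨j, Finset.mem_univ _, ?_⟩
          have h3 : β ≠ γ := h2
          cases β <;> cases γ
          · exact absurd rfl h3
          · exact Sym2.eq_swap
          · rfl
          · exact absurd rfl h3
        | some i =>
          refine ⟨j.succ, Finset.mem_univ _, ?_⟩
          rw [E_succ, Finset.mem_image]
          have h3 : β = γ := h2
          subst h3
          exact ⟨(β, i), Finset.mem_univ _, rfl⟩
      | some i =>
        cases q with
        | none =>
          refine ⟨j.succ, Finset.mem_univ _, ?_⟩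
          rw [E_succ, Finset.mem_image]
          have h3 : β = γ := h2
          subst h3
          exact ⟨(β, i), Finset.mem_univ _, Sym2.eq_swap⟩
        | some i' => exact absurd h2 (by simp [adjIn])

theorem disjoint_E (d : ℕ) : ∀ i j, i ≠ j → Disjoint (E d i) (E d j) := by
  have hbr : ∀ (j k : Fin (2 * d)) (x : Bool × Fin d), blue k ≠ red j x := by
    intro j k x h
    simp [blue, red] at h
  intro i j
  refine Fin.cases ?_ (fun i' => ?_) i <;> refine Fin.cases ?_ (fun j' => ?_) j
  · intro h; exact absurd rfl h
  · intro _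
    rw [E_zero, E_succ, Finset.disjoint_left]
    intro e he he'
    rw [Finset.mem_image] at he he'
    obtain ⟨k, -, rfl⟩ := he
    obtain ⟨x, -, hx⟩ := he'
    exact hbr _ _ _ hx.symm
  · intro _
    rw [E_zero, E_succ, Finset.disjoint_left]
    intro e he he'
    rw [Finset.mem_image] at he he'
    obtain ⟨k, -, rfl⟩ := he'
    obtain ⟨x, -, hx⟩ := he
    exact hbr _ _ _ hx.symm
  · intro hne
    rw [E_succ, E_succ, Finset.disjoint_left]
    intro e he he'
    rw [Finset.mem_image] at he he'
    obtain ⟨x, -, rfl⟩ := he
    obtain ⟨y, -, hy⟩ := he'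
    simp only [red, Sym2.eq_iff, Prod.mk.injEq] at hy
    apply hne
    rcases hy with h | h
    · rw [h.1.1]
    · rw [h.1.1]

theorem degree_centre (d : ℕ) (j : Fin (2 * d)) (β : Bool) :
    (H d).degree (j, β, none) = d + 1 := by
  have hN : (H d).neighborFinset (j, β, none) =
      insert (j, !β, none) (Finset.univ.image fun i : Fin d => ((j, β, some i) : Vert d)) := by
    ext ⟨k, γ, q⟩
    rw [SimpleGraph.mem_neighborFinset, Finset.mem_insert, Finset.mem_image]
    constructor
    · rintro ⟨h1, h2⟩
      simp only at h1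
      subst h1
      cases q with
      | none =>
        left
        have h3 : β ≠ γ := h2
        cases β <;> cases γ <;> simp_all
      | some i =>
        right
        have h3 : β = γ := h2
        subst h3
        exact ⟨i, Finset.mem_univ _, rfl⟩
    · rintro (h | ⟨i, -, h⟩)
      · simp only [Prod.mk.injEq] at h
        obtain ⟨rfl, rfl, rfl⟩ := h
        exact ⟨rfl, by simp [adjIn]⟩
      · rw [← h]
        exact ⟨rfl, by simp [adjIn]⟩
  rw [SimpleGraph.degree, hN, Finset.card_insert_of_notMem, Finset.card_image_of_injective]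
  · simp
  · intro a b h
    simpa using h
  · simp

theorem degree_leaf (d : ℕ) (j : Fin (2 * d)) (β : Bool) (i : Fin d) :
    (H d).degree (j, β, some i) ≤ 1 := by
  have hN : (H d).neighborFinset (j, β, some i) ⊆ {(j, β, none)} := by
    rintro ⟨k, γ, q⟩ h
    rw [SimpleGraph.mem_neighborFinset] at h
    obtain ⟨h1, h2⟩ := h
    simp only at h1
    subst h1
    cases q with
    | none =>
      have h3 : β = γ := h2
      subst h3
      simp
    | some i' => exact absurd h2 (by simp [adjIn])
  exact (Finset.card_le_card hN).trans (by simp)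

theorem maxDegree (d : ℕ) (hd : 1 ≤ d) : (H d).maxDegree = d + 1 := by
  apply le_antisymm
  · apply SimpleGraph.maxDegree_le_of_forall_degree_le
    rintro ⟨j, β, q⟩
    cases q with
    | none => exact (degree_centre d j β).le
    | some i => exact (degree_leaf d j β i).trans (by omega)
  · rw [← degree_centre d ⟨0, by omega⟩ true]
    exact (H d).degree_le_maxDegree _

theorem not_rainbow (d : ℕ) : ¬ HasRainbowMatching (E d) := by
  rintro ⟨e, he, hdis⟩
  have h0 := he 0
  rw [E_zero, Finset.mem_image] at h0
  obtain ⟨j, -, hj⟩ := h0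
  have h1 := he j.succ
  rw [E_succ, Finset.mem_image] at h1
  obtain ⟨⟨β, i⟩, -, hx⟩ := h1
  refine hdis 0 j.succ (Fin.succ_ne_zero j).symm (j, β, none) ⟨?_, ?_⟩
  · rw [← hj, blue, Sym2.mem_iff]
    cases β <;> simp
  · rw [← hx, red, Sym2.mem_iff]
    left
    rfl

/-- For every `D ≥ 2` there are a bipartite simple graph of maximum degree exactly `D` and a
partition of its edge set into classes of size `2 * D - 2` each that have no rainbow matching.
For `D ≥ 4` one has `2 * D - 2 ≥ D + 2`. -/
theorem result (D : ℕ) (hD : 2 ≤ D) :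
    ∃ (V : Type) (_ : Fintype V) (_ : DecidableEq V) (G : SimpleGraph V)
      (_ : DecidableRel G.Adj) (m : ℕ) (E : Fin m → Finset (Sym2 V)),
      G.Colorable 2 ∧ G.maxDegree = D ∧
      Finset.univ.biUnion E = G.edgeFinset ∧
      (∀ i j, i ≠ j → Disjoint (E i) (E j)) ∧
      (∀ i, (E i).card = 2 * D - 2) ∧
      ¬ HasRainbowMatching E := by
  obtain ⟨d, rfl⟩ : ∃ d, D = d + 1 := ⟨D - 1, by omega⟩
  refine ⟨Vert d, inferInstance, inferInstance, H d, inferInstance, 2 * d + 1, E d,
    colorable d, maxDegree d (by omega), union_E d, disjoint_E d, ?_, not_rainbow d⟩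
  intro i
  rw [card_E]
  omega

end Pool.Agent.Results.MP_75e851_co.DoubleStars
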